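import Pool.Agent.H95.NevZ

set_option autoImplicit false

open Filter Topology Pool.Agent.H95.NevZ

theorem Pool.Agent.Results.MP_9bfa98_an.Unbounded.result :
    ∃ m : ℕ → ℂ → ℂ, (∀ j, IsNev (m j)) ∧
      (∀ u v : ℝ, 0 ≤ u → u < v → v ≤ 1 →
        Tendsto (fun j => poles (m j) (seg u v)) atTop (𝓝 ⊤)) ∧
      (∀ z : ℂ, 0 < z.im → Tendsto (fun j => m j z) atTop (𝓝 0)) ∧
      ∀ j : ℕ, poles (m j) box ≠ ⊤ ∧
        zeros (fun z => m j z - Complex.I) box + j ≤ poles (m j) box :=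
  Pool.Agent.H95.NevZ.main
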